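import Pool.Agent.H95.FA.Stm

/-!
# Project FA (helper95): expansion of a germ along the powers of the golden ratio (module EXP, helper59)
-/

set_option autoImplicit false

namespace Pool.Agent.H59.FA

open Polynomial Filter Topology Asymptotics
open Pool.Agent.Q270.PX (An RA rt)
open Real (goldenRatio)

theorem alg_phi : IsAlgebraic ℚ goldenRatio := by
  refine ⟨X ^ 2 - X - 1, ?_, ?_⟩
  · intro h
    have := congrArg (fun p : ℚ[X] => p.coeff 0) h
    simp at this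
  · simp only [map_sub, map_pow, aeval_X, map_one]
    rw [Real.goldenRatio_sq]
    ring

theorem zp {β : ℝ} (hβ : β ≠ 0) (s n j : ℕ) :
    β ^ ((s : ℤ) * ((n : ℤ) - (j : ℤ))) = (β ^ s) ^ n * ((β ^ s) ^ j)⁻¹ := by
  rw [zpow_mul, zpow_natCast, zpow_sub₀ (pow_ne_zero s hβ), zpow_natCast, zpow_natCast, div_eq_mul_inv]

/-- the germ along the powers of an algebraic number -/
theorem expand (β : ℝ) (hβ : 1 < β) (hβa : IsAlgebraic ℚ β) (G : ℝ → ℝ) (D q i J : ℕ) (hG : An RA G) (hq : 1 ≤ q) :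
    ∃ (α : Fin (q * D + J) → ℝ) (C : ℝ), (∀ j, IsAlgebraic ℚ (α j)) ∧ 0 ≤ C ∧ ∃ s₁ : ℕ, ∀ s : ℕ, s₁ ≤ s →
      |(β ^ (q * s + i)) ^ D * G (rt q (β ^ (q * s + i))) -
        ∑ j : Fin (q * D + J), (β ^ s) ^ (q * D) * ((β ^ s) ^ (j : ℕ))⁻¹ * α j| ≤ C * ((β ^ s) ^ J)⁻¹ := by
  obtain ⟨g, hg, -⟩ := Pool.Agent.Q270.PX.exists_coeff hG.1
  have hgK : ∀ j, g j ∈ RA := Pool.Agent.Q270.PX.coeff_mem hG hg
  have hq0 : (0 : ℝ) < q := by exact_mod_cast hq
  have hβ0 : 0 < β := by linarith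
  set κ : ℝ := β ^ (-((i : ℝ) / q)) with hκ
  have hκ0 : 0 < κ := Real.rpow_pos_of_pos hβ0 _
  have hκq : κ ^ q = (β ^ i)⁻¹ := by
    rw [hκ, ← Real.rpow_natCast, ← Real.rpow_mul hβ0.le, ← Real.rpow_natCast, ← Real.rpow_neg hβ0.le]
    congr 1
    field_simp
  have hκa : IsAlgebraic ℚ κ := by
    refine IsAlgebraic.of_pow (n := q) (by omega) ?_
    rw [hκq]
    exact (hβa.pow i).inv
  have hrt : ∀ s : ℕ, rt q (β ^ (q * s + i)) = κ * (β ^ s)⁻¹ := by
    intro s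
    unfold Pool.Agent.Q270.PX.rt
    rw [hκ, ← Real.rpow_natCast, ← Real.rpow_natCast, ← Real.rpow_mul hβ0.le, ← Real.rpow_neg hβ0.le,
      ← Real.rpow_add hβ0]
    congr 1
    push_cast
    field_simp
    ring
  have hlim : Tendsto (fun s : ℕ => κ * (β ^ s)⁻¹) atTop (𝓝[>] 0) := by
    rw [tendsto_nhdsWithin_iff]
    constructor
    · have h1 : Tendsto (fun s : ℕ => (β ^ s)⁻¹) atTop (𝓝 0) :=
        (tendsto_pow_atTop_atTop_of_one_lt hβ).inv_tendsto_atTop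
      simpa using h1.const_mul κ
    · exact Eventually.of_forall fun s => by
        show 0 < κ * (β ^ s)⁻¹
        positivity
  have hO := (hg (q * D + J)).comp_tendsto hlim
  obtain ⟨C, hC0, hC⟩ := hO.exists_nonneg
  rw [isBigOWith_iff] at hC
  obtain ⟨s₁, hs₁⟩ := eventually_atTop.1 hC
  refine ⟨fun j => β ^ (i * D) * (g j * κ ^ (j : ℕ)), β ^ (i * D) * C * κ ^ (q * D + J), ?_, by positivity,
    s₁, ?_⟩
  · intro j
    exact (hβa.pow _).mul (((Pool.Agent.Q270.PX.mem_RA _).1 (hgK j)).mul (hκa.pow _))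
  · intro s hs
    have h1 := hs₁ s hs
    simp only [Function.comp] at h1
    rw [hrt]
    have e2 : (β ^ (q * s + i)) ^ D = β ^ (i * D) * (β ^ s) ^ (q * D) := by
      rw [← pow_mul, ← pow_mul, ← pow_add]
      congr 1
      ring
    have h2 : ∑ j : Fin (q * D + J), (β ^ s) ^ (q * D) * ((β ^ s) ^ (j : ℕ))⁻¹ * (β ^ (i * D) * (g j * κ ^ (j : ℕ))) =
        (β ^ (q * s + i)) ^ D * ∑ j ∈ Finset.range (q * D + J), g j * (κ * (β ^ s)⁻¹) ^ j := by
      rw [Finset.sum_range, Finset.mul_sum]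
      refine Finset.sum_congr rfl fun j _ => ?_
      rw [e2, mul_pow, inv_pow]
      ring
    rw [h2, ← mul_sub, abs_mul, abs_of_nonneg (by positivity)]
    rw [Real.norm_eq_abs, Real.norm_eq_abs, abs_of_nonneg (by positivity : (0 : ℝ) ≤ (κ * (β ^ s)⁻¹) ^ (q * D + J))] at h1
    calc (β ^ (q * s + i)) ^ D * |G (κ * (β ^ s)⁻¹) - ∑ j ∈ Finset.range (q * D + J), g j * (κ * (β ^ s)⁻¹) ^ j|
        ≤ (β ^ (q * s + i)) ^ D * (C * (κ * (β ^ s)⁻¹) ^ (q * D + J)) :=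
          mul_le_mul_of_nonneg_left h1 (by positivity)
      _ = β ^ (i * D) * C * κ ^ (q * D + J) * ((β ^ s) ^ J)⁻¹ := by
          rw [e2, mul_pow, inv_pow, pow_add (β ^ s)]
          have h3 : (β ^ s) ^ (q * D) ≠ 0 := by positivity
          have h4 : (β ^ s) ^ J ≠ 0 := by positivity
          field_simp

theorem t_EXP : Pool.Agent.H95.FA.S_EXP := by
  intro G D q i J hG hq
  obtain ⟨α, C, hα, hC, s₁, h⟩ := expand goldenRatio Real.one_lt_goldenRatio alg_phi G D q i J hG hq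
  have hβ : goldenRatio ≠ 0 := Real.goldenRatio_ne_zero
  refine ⟨α, C, hα, hC, s₁, fun s hs => ?_⟩
  have h1 := h s hs
  have e1 : ∀ j : Fin (q * D + J), goldenRatio ^ ((s : ℤ) * ((q * D : ℕ) - (j : ℕ) : ℤ)) =
      (goldenRatio ^ s) ^ (q * D) * ((goldenRatio ^ s) ^ (j : ℕ))⁻¹ := fun j => zp hβ s (q * D) j
  have e2 : goldenRatio ^ ((J : ℤ) * s) = (goldenRatio ^ s) ^ J := by
    rw [mul_comm, zpow_mul, zpow_natCast, zpow_natCast]
  simp only [e1, e2]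
  exact h1

end Pool.Agent.H59.FA
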