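import Pool.Agent.H95.FA.Stm2

/-!
# Project FA (helper95): modules NRM and DEN (helper59)
-/

set_option autoImplicit false

namespace Pool.Agent.H59.FA

open Polynomial

theorem t_NRM : Pool.Agent.H95.FA.S_NRM := by
  intro K _ _ _ ι y hy hy0
  have h1 : IsIntegral ℤ (Algebra.norm ℚ y) := Algebra.isIntegral_norm ℚ hy
  obtain ⟨n, hn⟩ := IsIntegrallyClosed.isIntegral_iff.1 h1
  have hn0 : n ≠ 0 := by
    rintro rfl
    rw [map_zero] at hn
    exact (Algebra.norm_ne_zero_iff.2 hy0) hn.symm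
  have h2 : ∏ σ : K ≃ₐ[ℚ] K, ‖ι (σ y)‖ = ‖ι (∏ σ : K ≃ₐ[ℚ] K, σ y)‖ := by
    rw [map_prod, norm_prod]
  have h3 : (∏ σ : K ≃ₐ[ℚ] K, σ y) = algebraMap ℚ K (Algebra.norm ℚ y) :=
    (Algebra.norm_eq_prod_automorphisms ℚ y).symm
  rw [h2, h3, ← hn]
  have h4 : ι (algebraMap ℚ K (algebraMap ℤ ℚ n)) = (n : ℂ) := by
    simp
  rw [h4, Complex.norm_intCast]
  have : 1 ≤ |n| := Int.one_le_abs hn0
  exact_mod_cast this

theorem mult (K : Type) [Field K] [NumberField K] (a : K) : ∃ N : ℕ, 1 ≤ N ∧ IsIntegral ℤ ((N : K) * a) := by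
  have h1 : IsAlgebraic ℤ a := (IsFractionRing.isAlgebraic_iff ℤ ℚ K).2 (Algebra.IsAlgebraic.isAlgebraic a)
  obtain ⟨z, hz, h2⟩ := h1.exists_integral_multiple
  refine ⟨z.natAbs, Int.natAbs_pos.2 hz, ?_⟩
  have h3 : (z : K) * a = z • a := by simp
  rw [← h3] at h2
  rcases Int.natAbs_eq z with h | h
  · have : ((z.natAbs : ℕ) : K) = (z : K) := by
      conv_rhs => rw [h]
      simp
    rw [this]
    exact h2
  · have : ((z.natAbs : ℕ) : K) = -(z : K) := by
      conv_rhs => rw [h]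
      simp
    rw [this, neg_mul]
    exact h2.neg

theorem t_DEN : Pool.Agent.H95.FA.S_DEN := by
  intro K _ _
  constructor
  · intro p
    choose N hN hNi using fun i => mult K (p.coeff i)
    refine ⟨∏ i ∈ p.support, N i, Nat.one_le_iff_ne_zero.2 (Finset.prod_ne_zero_iff.2 fun i _ => by have := hN i; omega), ?_⟩
    intro y hy
    rw [Polynomial.eval_eq_sum, Polynomial.sum, Finset.mul_sum]
    apply IsIntegral.sum
    intro i hi
    obtain ⟨k, hk⟩ := Finset.dvd_prod_of_mem N hi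
    rw [hk]
    have e : ((N i * k : ℕ) : K) * (p.coeff i * y ^ i) = (k : K) * ((N i : K) * p.coeff i) * y ^ i := by
      push_cast
      ring
    rw [e]
    have hk2 : IsIntegral ℤ (k : K) := by
      have := isIntegral_algebraMap (R := ℤ) (A := K) (x := (k : ℤ))
      simpa using this
    exact (hk2.mul (hNi i)).mul (hy.pow i)
  · intro N g hg h
    have e : (N : K) / (g : K) = algebraMap ℚ K ((N : ℚ) / g) := by simp
    rw [e, isIntegral_algebraMap_iff (algebraMap ℚ K).injective] at h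
    obtain ⟨z, hz⟩ := IsIntegrallyClosed.isIntegral_iff.1 h
    have hg0 : (g : ℚ) ≠ 0 := by
      have : g ≠ 0 := by omega
      exact_mod_cast this
    rw [eq_div_iff hg0] at hz
    have h5 : z * g = (N : ℤ) := by
      have : ((z * g : ℤ) : ℚ) = ((N : ℤ) : ℚ) := by
        push_cast
        simpa using hz
      exact_mod_cast this
    have : (g : ℤ) ∣ (N : ℤ) := ⟨z, by rw [← h5]; ring⟩
    exact_mod_cast this

end Pool.Agent.H59.FA
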